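import Pool.Agent.H91.NV.LTargets

/-!
# Row L_FMZ of the board `nvk_modules`: the mollified value of the principal form
-/

set_option autoImplicit false

open MeasureTheory Set Filter NumberField NumberField.InfinitePlace
open Pool.Agent.H65.CM4 Pool.Agent.H61.NVK Pool.Agent.H89.NV Pool.Agent.H91.NV
open scoped Real

namespace Pool.Agent.H99.NVKF

section
variable {k : Type} [Field k] [NumberField k]

open Classical in
/-- the product over a set of primes splits -/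
theorem nS_split (R m : Finset (PrI k)) : nS m = nS (m \ R) * nS (m ∩ R) := by
  unfold nS
  rw [mul_comm, ← Finset.prod_inter_mul_prod_sdiff m R]

omit [NumberField k] in
open Classical in
theorem idS_split (R m : Finset (PrI k)) : idS m = idS (m \ R) * idS (m ∩ R) := by
  unfold idS
  rw [mul_comm, ← Finset.prod_inter_mul_prod_sdiff m R]

omit [NumberField k] in
theorem idS_ne (m : Finset (PrI k)) : idS m ≠ ⊥ := by
  unfold idS
  exact Finset.prod_ne_zero_iff.2 fun P _ => P.2.2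

omit [NumberField k] in
open Classical in
theorem mem_bs_iff {f A : Ideal (𝓞 k)} {D b : 𝓞 k} :
    b ∈ bs f A D ↔ b ∈ Rs (ni k 2 * (A * f)) ∧ b ∈ f ∧ b ^ 2 + D ∈ ni k 4 * (A * f ^ 2) := by
  unfold bs
  rw [Finset.mem_filter]

omit [NumberField k] in
theorem mem_bs {f A : Ideal (𝓞 k)} {D b : 𝓞 k} (h : b ∈ bs f A D) :
    b ∈ f ∧ b ^ 2 + D ∈ ni k 4 * f ^ 2 := by
  rw [mem_bs_iff] at h
  refine ⟨h.2.1, ?_⟩
  have h2 : ni k 4 * (A * f ^ 2) ≤ ni k 4 * f ^ 2 := Ideal.mul_mono_right Ideal.mul_le_right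
  exact h2 h.2.2

omit [NumberField k] in
theorem mem_ni_mul {x : 𝓞 k} {n : ℕ} {I : Ideal (𝓞 k)} (h : x ∈ ni k n * I) :
    ∃ j ∈ I, x = n * j := by
  unfold ni at h
  obtain ⟨j, hj, e⟩ := Ideal.mem_span_singleton_mul.1 h
  exact ⟨j, hj, e.symm⟩

omit [NumberField k] in
theorem ni_mul_mem {j : 𝓞 k} {n : ℕ} {I : Ideal (𝓞 k)} (h : j ∈ I) :
    (n : 𝓞 k) * j ∈ ni k n * I := by
  unfold ni
  exact Ideal.mem_span_singleton_mul.2 ⟨j, h, rfl⟩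

end

variable (k : Type) [Field k] [NumberField k] [IsTotallyReal k]

omit [IsTotallyReal k] in
/-- the middle coefficients for the unit ideal -/
theorem bs_top (hRSB : T_RSB k) (hBMD : T_BMD k) (f : Ideal (𝓞 k)) (D b₀ : 𝓞 k) (hf : f ≠ ⊥)
    (hb : b₀ ∈ f) (hbD : b₀ ^ 2 + D ∈ ni k 4 * f ^ 2) :
    ∃ s ∈ f, bs f ⊤ D = {b₀ + 2 * s} := by
  have h2 : (ni k 2 : Ideal (𝓞 k)) ≠ ⊥ := by
    unfold ni
    rw [Ne, Ideal.span_singleton_eq_bot]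
    exact_mod_cast (two_ne_zero : (2 : 𝓞 k) ≠ 0)
  have hI : ni k 2 * (⊤ * f) ≠ ⊥ := by
    rw [Ideal.top_mul]
    exact mul_ne_zero h2 hf
  obtain ⟨r1, -⟩ := hRSB.1 _ hI
  obtain ⟨r, ⟨hr, hr'⟩, hru⟩ := r1 b₀
  rw [Ideal.top_mul] at hr'
  obtain ⟨t, ht, e⟩ := mem_ni_mul hr'
  have er : r = b₀ + 2 * (-t) := by
    push_cast at e
    linear_combination -e
  have hrf : r ∈ f := by
    rw [er]
    exact Ideal.add_mem _ hb (Ideal.mul_mem_left _ _ (Ideal.neg_mem_iff _ |>.2 ht))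
  have hrD : r ^ 2 + D ∈ ni k 4 * f ^ 2 := by
    have e2 : r ^ 2 + D = (b₀ ^ 2 + D) + ((4 : ℕ) : 𝓞 k) * (t * t - b₀ * t) := by
      rw [er]; push_cast; ring
    rw [e2]
    refine Ideal.add_mem _ hbD (ni_mul_mem ?_)
    rw [pow_two]
    exact Ideal.sub_mem _ (Ideal.mul_mem_mul ht ht) (Ideal.mul_mem_mul hb ht)
  refine ⟨-t, neg_mem ht, ?_⟩
  rw [← er]
  ext b
  rw [mem_bs_iff, Finset.mem_singleton, Ideal.top_mul, Ideal.top_mul]
  constructor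
  · rintro ⟨q1, q2, q3⟩
    have q4' := hBMD f D b₀ b hf hb q2 hbD q3
    have := hru b ⟨by rw [Ideal.top_mul]; exact q1, by rw [Ideal.top_mul]; exact q4'⟩
    exact this
  · rintro rfl
    refine ⟨?_, hrf, hrD⟩
    rw [Ideal.top_mul] at hr
    exact hr

omit [IsTotallyReal k] in
/-- the sum over the middle coefficients as a sum over the roots -/
theorem sum_bs (hRSB : T_RSB k) (hBMD : T_BMD k) (hTRV : T_TRV k) (hFIB : T_FIB k)
    (f I : Ideal (𝓞 k)) (D b₀ : 𝓞 k) (hf : f ≠ ⊥) (hI : I ≠ ⊥)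
    (hb : b₀ ∈ f) (hbD : b₀ ^ 2 + D ∈ ni k 4 * f ^ 2) (G : 𝓞 k → ℝ)
    (hG : ∀ b, ∀ j ∈ I * f, G (b + 2 * j) = G b) :
    ∑ b ∈ bs f I D, G b = ∑ j ∈ rts f I ⊤ b₀ (q4 (b₀ ^ 2 + D)), G (b₀ + 2 * j) := by
  have h1 := hFIB f I ⊤ D G hf hI top_ne_bot (by
    intro b x hx
    obtain ⟨j, hj, e⟩ := mem_ni_mul hx
    rw [Ideal.mul_top] at hj
    rw [e]
    exact_mod_cast hG b j hj)
  rw [Ideal.mul_top] at h1
  rw [h1]
  obtain ⟨s, hs, e⟩ := bs_top k hRSB hBMD f D b₀ hf hb hbD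
  rw [e, Finset.sum_singleton]
  have hFm : Fm f D ⊤ b₀ := ⟨top_ne_bot, hb, by rw [Ideal.top_mul]; exact hbD⟩
  obtain ⟨-, -, -, t4, -⟩ := hTRV f ⊤ D b₀ hf hFm
  obtain ⟨-, -, t5⟩ := t4 s (by rw [Ideal.top_mul]; exact hs)
  have t6 := t5 I (fun i => G (b₀ + 2 * s + 2 * i)) hI (by
    intro x y hy
    rw [Ideal.top_mul] at hy
    have : b₀ + 2 * s + 2 * (x + y) = b₀ + 2 * s + 2 * x + 2 * y := by ring
    simp only [this]
    exact hG _ y hy)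
  rw [t6]
  refine Finset.sum_congr rfl fun i _ => ?_
  refine congrArg G ?_
  ring

open Classical in
/-- (FMZ) -/
theorem pf_FMZ (hPZ1 : T_PZ1 k) (hRSB : T_RSB k) (_hIDL : T_IDL k) (hBMD : T_BMD k)
    (hTRV : T_TRV k) (hFIB : T_FIB k) (hANF : T_ANF k) (hSDS : T_SDS k) (hZFP : T_ZFP k) :
    T_FMZ k := by
  intro f R hf P M D hM hD hg
  have hdis : Dis f D := hg.1
  obtain ⟨b₀, hb0⟩ : ∃ b₀ : 𝓞 k, b₀ = bD f D := ⟨_, rfl⟩
  have hbb : b₀ ∈ f ∧ b₀ ^ 2 + D ∈ ni k 4 * f ^ 2 := by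
    rw [hb0]
    unfold bD
    rw [dif_pos hdis]
    exact hdis.choose_spec
  obtain ⟨hb, hbD⟩ := hbb
  rw [← hb0]
  unfold Z1
  rw [hPZ1 f D b₀ (SD M R) _ hf hD hb hbD]
  obtain ⟨g, hgd⟩ : ∃ g : Finset (PrI k) → Finset (PrI k) → ℝ, ∀ n m, g n m =
      an f R n b₀ (q4 (b₀ ^ 2 + D)) / Real.sqrt (nS m * nS n) *
        ∑ j ∈ rts f (idS m * idS n) ⊤ b₀ (q4 (b₀ ^ 2 + D)),
          zf (idS m * idS n) f (em (b₀ + 2 * j)) (em D) := ⟨_, fun _ _ => rfl⟩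
  have s1 : ∀ m ∈ SD M R, CD P M f R b₀ (q4 (b₀ ^ 2 + D)) m / Real.sqrt (nS m) *
      ∑ j ∈ rts f (idS m) ⊤ b₀ (q4 (b₀ ^ 2 + D)), zf (idS m) f (em (b₀ + 2 * j)) (em D) =
      cm P M R (m \ R) * g (m ∩ R) (m \ R) := by
    intro m _
    rw [hgd, CD, ← nS_split R m, ← idS_split R m]
    ring
  rw [Finset.sum_congr rfl s1, hSDS M R P g]
  refine Finset.sum_congr rfl fun n _ => Finset.sum_congr rfl fun m _ => ?_
  have hI : idS m * idS n ≠ ⊥ := mul_ne_zero (idS_ne m) (idS_ne n)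
  rw [hgd]
  have s2 : ∑ b ∈ bs f (idS m * idS n) D, wF f R n ⊤ (idS m * idS n) b (q4 (b ^ 2 + D)) *
      zf (idS m * idS n) f (em b) (em D) = an f R n b₀ (q4 (b₀ ^ 2 + D)) *
      ∑ b ∈ bs f (idS m * idS n) D, zf (idS m * idS n) f (em b) (em D) := by
    rw [Finset.mul_sum]
    refine Finset.sum_congr rfl fun b hbm => ?_
    obtain ⟨c1, c2⟩ := mem_bs hbm
    obtain ⟨a1, -, -, -⟩ := hANF f D b₀ b hf hb c1 hbD c2
    obtain ⟨-, -, a4, -⟩ := hANF f D b b₀ hf c1 hb c2 hbD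
    unfold wF
    rw [a4, if_pos hg, ← a1]
  rw [s2, sum_bs k hRSB hBMD hTRV hFIB f (idS m * idS n) D b₀ hf hI hb hbD
    (fun b => zf (idS m * idS n) f (em b) (em D))
    (fun b j hj => hZFP (idS m * idS n) f D b j hf hI hD hj)]
  ring

end Pool.Agent.H99.NVKF
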