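import Pool.Agent.H91.NV.LTargets

/-!
# Row L_UFC of the board `nvk_modules`: the unfolded second moment with the coefficients `CD`
-/

set_option autoImplicit false

open MeasureTheory Set Filter NumberField NumberField.InfinitePlace
open Pool.Agent.H65.CM4 Pool.Agent.H61.NVK Pool.Agent.H89.NV Pool.Agent.H91.NV
open scoped Real

namespace Pool.Agent.H99.NVK

section
variable {k : Type} [Field k] [NumberField k]

open Classical in
/-- the product over a set of primes splits -/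
theorem nS_split (R m : Finset (PrI k)) : nS m = nS (m ∩ R) * nS (m \ R) := by
  unfold nS
  rw [← Finset.prod_inter_mul_prod_sdiff m R]

omit [NumberField k] in
open Classical in
theorem idS_split (R m : Finset (PrI k)) : idS m = idS (m ∩ R) * idS (m \ R) := by
  unfold idS
  rw [← Finset.prod_inter_mul_prod_sdiff m R]

omit [NumberField k] in
open Classical in
theorem Nw_split (f : Ideal (𝓞 k)) (R m₁ m₂ : Finset (PrI k)) (e A : Ideal (𝓞 k)) (b c : 𝓞 k) :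
    Nw f m₁ m₂ e A b c = Nw f (m₁ ∩ R) (m₂ ∩ R) e A b c * Nw f (m₁ \ R) (m₂ \ R) e A b c := by
  unfold Nw
  rw [← Finset.prod_inter_mul_prod_sdiff (m₁ ∪ m₂) R]
  have h1 : (m₁ ∪ m₂) ∩ R = (m₁ ∩ R) ∪ (m₂ ∩ R) := Finset.union_inter_distrib_right _ _ _
  have h2 : (m₁ ∪ m₂) \ R = (m₁ \ R) ∪ (m₂ \ R) := Finset.union_sdiff_distrib _ _ _
  rw [h1, h2]
  refine congrArg₂ (· * ·) (Finset.prod_congr rfl fun P hP => ?_)
    (Finset.prod_congr rfl fun P hP => ?_)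
  · have hR : P ∈ R := by
      rcases Finset.mem_union.1 hP with h | h
      · exact (Finset.mem_inter.1 h).2
      · exact (Finset.mem_inter.1 h).2
    have e1 : P ∈ m₁ ∩ R ↔ P ∈ m₁ := by rw [Finset.mem_inter]; tauto
    have e2 : P ∈ m₂ ∩ R ↔ P ∈ m₂ := by rw [Finset.mem_inter]; tauto
    by_cases h : P ∈ m₁ ∧ P ∈ m₂
    · rw [if_pos h, if_pos (by rw [e1, e2]; exact h)]
    · rw [if_neg h, if_neg (by rw [e1, e2]; exact h)]
  · have hR : P ∉ R := by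
      rcases Finset.mem_union.1 hP with h | h
      · exact (Finset.mem_sdiff.1 h).2
      · exact (Finset.mem_sdiff.1 h).2
    have e1 : P ∈ m₁ \ R ↔ P ∈ m₁ := by rw [Finset.mem_sdiff]; tauto
    have e2 : P ∈ m₂ \ R ↔ P ∈ m₂ := by rw [Finset.mem_sdiff]; tauto
    by_cases h : P ∈ m₁ ∧ P ∈ m₂
    · rw [if_pos h, if_pos (by rw [e1, e2]; exact h)]
    · rw [if_neg h, if_neg (by rw [e1, e2]; exact h)]

omit [NumberField k] in
open Classical in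
theorem mem_bs {f A : Ideal (𝓞 k)} {D b : 𝓞 k} (h : b ∈ bs f A D) :
    b ∈ f ∧ b ^ 2 + D ∈ ni k 4 * f ^ 2 := by
  unfold bs at h
  rw [Finset.mem_filter] at h
  refine ⟨h.2.1, ?_⟩
  have h2 : ni k 4 * (A * f ^ 2) ≤ ni k 4 * f ^ 2 := Ideal.mul_mono_right Ideal.mul_le_right
  exact h2 h.2.2

end

variable (k : Type) [Field k] [NumberField k] [IsTotallyReal k]

open Classical in
/-- (UFC) -/
theorem pf_UFC (hANF : T_ANF k) (hSDS : T_SDS k) : T_UFC k := by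
  intro P M f R b D hf _ _ hg hb hbD
  obtain ⟨H, hH⟩ : ∃ H : Finset (PrI k) → Finset (PrI k) → Finset (PrI k) → Finset (PrI k) → ℝ,
      ∀ n₁ m₁ n₂ m₂, H n₁ m₁ n₂ m₂ = US f D (fun e A b c =>
        wt f (nS n₁ * nS n₂ * nS m₁ * nS m₂) e A (em D) *
          wN f R n₁ n₂ e A b c * Nw f m₁ m₂ e A b c) (fun A b _ => zf A f (em b) (em D)) :=
    ⟨_, fun _ _ _ _ => rfl⟩
  have key : ∀ m₁ m₂ : Finset (PrI k),
      CD P M f R b (q4 (b ^ 2 + D)) m₁ * CD P M f R b (q4 (b ^ 2 + D)) m₂ * Uf f m₁ m₂ D =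
        cm P M R (m₁ \ R) * (cm P M R (m₂ \ R) * H (m₁ ∩ R) (m₁ \ R) (m₂ ∩ R) (m₂ \ R)) := by
    intro m₁ m₂
    have k1 : an f R (m₁ ∩ R) b (q4 (b ^ 2 + D)) * an f R (m₂ ∩ R) b (q4 (b ^ 2 + D)) *
        Uf f m₁ m₂ D = H (m₁ ∩ R) (m₁ \ R) (m₂ ∩ R) (m₂ \ R) := by
      rw [hH, Uf, US, US, ← tsum_mul_left]
      refine tsum_congr fun p => ?_
      rw [Finset.mul_sum]
      refine Finset.sum_congr rfl fun b' hb' => ?_
      obtain ⟨c1, c2⟩ := mem_bs hb'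
      obtain ⟨a1, -, a3, -⟩ := hANF f D b b' hf hb c1 hbD c2
      obtain ⟨-, -, a4, -⟩ := hANF f D b' b hf c1 hb c2 hbD
      have g1 : wN f R (m₁ ∩ R) (m₂ ∩ R) p.1 p.2 b' (q4 (b' ^ 2 + D)) =
          an f R (m₁ ∩ R) b (q4 (b ^ 2 + D)) * an f R (m₂ ∩ R) b (q4 (b ^ 2 + D)) *
            Nw f (m₁ ∩ R) (m₂ ∩ R) p.1 p.2 b' (q4 (b' ^ 2 + D)) := by
        unfold wN
        rw [a4, if_pos hg, ← a1, ← a1]
      rw [g1, Nw_split f R m₁ m₂, nS_split R m₁, nS_split R m₂]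
      have g2 : nS (m₁ ∩ R) * nS (m₁ \ R) * (nS (m₂ ∩ R) * nS (m₂ \ R)) =
          nS (m₁ ∩ R) * nS (m₂ ∩ R) * nS (m₁ \ R) * nS (m₂ \ R) := by ring
      rw [g2]
      push_cast
      ring
    rw [← k1, CD, CD]
    ring
  unfold S2
  refine congrArg (fun x => 2 * x) ?_
  have s1 : ∀ n₁ m₁ : Finset (PrI k),
      ∑ m₂ ∈ SD M R, cm P M R (m₂ \ R) * H n₁ m₁ (m₂ ∩ R) (m₂ \ R) =
        ∑ n₂ ∈ R.powerset, ∑ m₂ ∈ DM k M, cm P M R m₂ * H n₁ m₁ n₂ m₂ := fun n₁ m₁ =>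
    hSDS M R P (fun n m => H n₁ m₁ n m)
  have s2 := hSDS M R P (fun n₁ m₁ => ∑ n₂ ∈ R.powerset, ∑ m₂ ∈ DM k M,
    cm P M R m₂ * H n₁ m₁ n₂ m₂)
  calc ∑ m₁ ∈ SD M R, ∑ m₂ ∈ SD M R, CD P M f R b (q4 (b ^ 2 + D)) m₁ *
        CD P M f R b (q4 (b ^ 2 + D)) m₂ * Uf f m₁ m₂ D
      = ∑ m₁ ∈ SD M R, cm P M R (m₁ \ R) * ∑ n₂ ∈ R.powerset, ∑ m₂ ∈ DM k M,
          cm P M R m₂ * H (m₁ ∩ R) (m₁ \ R) n₂ m₂ := by
        refine Finset.sum_congr rfl fun m₁ _ => ?_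
        rw [← s1, Finset.mul_sum]
        exact Finset.sum_congr rfl fun m₂ _ => key m₁ m₂
    _ = ∑ n₁ ∈ R.powerset, ∑ m₁ ∈ DM k M, cm P M R m₁ * ∑ n₂ ∈ R.powerset, ∑ m₂ ∈ DM k M,
          cm P M R m₂ * H n₁ m₁ n₂ m₂ := s2
    _ = _ := by
        refine Finset.sum_congr rfl fun n₁ _ => ?_
        rw [Finset.sum_comm]
        refine Finset.sum_congr rfl fun m₁ _ => ?_
        rw [Finset.mul_sum]
        refine Finset.sum_congr rfl fun n₂ _ => ?_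
        rw [Finset.mul_sum]
        refine Finset.sum_congr rfl fun m₂ _ => ?_
        rw [hH]
        ring

end Pool.Agent.H99.NVK
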